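import Pool.Agent.SPV.StmtsE

set_option autoImplicit false

/-! Row POE of the squad SPV: the determinant as a polynomial. -/

namespace Pool.Agent.SPV.H70

open Finset

/-- the character `e ↦ x ^ e.val` for `x ^ q = 1` -/
def chr {q : ℕ} [NeZero q] {K : Type} [CommRing K] (x : K) (hx : x ^ q = 1) :
    Multiplicative (ZMod q) →* K where
  toFun e := x ^ (Multiplicative.toAdd e).val
  map_one' := by
    show x ^ (0 : ZMod q).val = 1
    rw [ZMod.val_zero, pow_zero]
  map_mul' a b := by
    show x ^ (Multiplicative.toAdd a + Multiplicative.toAdd b).val = _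
    rw [ZMod.val_add, ← pow_add]
    conv_rhs => rw [← Nat.div_add_mod ((Multiplicative.toAdd a).val + (Multiplicative.toAdd b).val) q]
    rw [pow_add, pow_mul, hx, one_pow, one_mul]

theorem lift_eq_ev {q : ℕ} [NeZero q] {K : Type} [CommRing K] (x : K) (hx : x ^ q = 1)
    (f : AddMonoidAlgebra ℤ (ZMod q)) :
    AddMonoidAlgebra.lift ℤ K (ZMod q) (chr x hx) f = ev (fun e => f.coeff e) x := by
  rw [AddMonoidAlgebra.lift_apply]
  unfold ev
  rw [Finsupp.sum_fintype _ _ (fun i => by simp)]
  refine Finset.sum_congr rfl fun e _ => ?_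
  rw [zsmul_eq_mul]
  rfl

theorem pow_mul_val {q : ℕ} [NeZero q] {K : Type} [CommRing K] (x : K) (hx : x ^ q = 1)
    (a b : ZMod q) : x ^ (a * b).val = (x ^ a.val) ^ b.val := by
  rw [← pow_mul, ZMod.val_mul]
  conv_rhs => rw [← Nat.div_add_mod (a.val * b.val) q]
  rw [pow_add, pow_mul, hx, one_pow, one_mul]

theorem poe : PoeStmt := by
  intro q t _ F s
  classical
  set M : Matrix (Fin t) (Fin t) (AddMonoidAlgebra ℤ (ZMod q)) :=
    Matrix.of fun i l => ∑ e, AddMonoidAlgebra.single (s i * e) (F l e) with hM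
  refine ⟨fun e => M.det.coeff e, ?_⟩
  intro K _ x hx
  rw [← lift_eq_ev x hx, AlgHom.map_det]
  congr 1
  ext i l
  simp only [AlgHom.mapMatrix_apply, Matrix.map_apply, hM, Matrix.of_apply, map_sum]
  unfold ev
  refine Finset.sum_congr rfl fun e _ => ?_
  rw [AddMonoidAlgebra.lift_single, zsmul_eq_mul]
  congr 1
  show x ^ (s i * e).val = _
  exact pow_mul_val x hx _ _

end Pool.Agent.SPV.H70
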