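import Pool.Agent.SPV.StmtsE
import Pool.Agent.Helper24_Sparse.Cpx
import Pool.Agent.Helper70_SPV.POE

set_option autoImplicit false

/-! Row DEP of the squad SPV: dependent tuples. -/

namespace Pool.Agent.SPV.H70

open Finset

theorem ev_ne_zero70 {q : ℕ} [NeZero q] (hq : q.Prime) (b : ZMod q → ℤ) (hb : ∃ t, b t = 0)
    (hb' : ∃ t, b t ≠ 0) (w : ℂ) (hw : IsPrimitiveRoot w q) : ev b w ≠ 0 := by
  obtain ⟨n, rfl⟩ : ∃ n, q = n + 1 := ⟨q - 1, (Nat.succ_pred_eq_of_pos hq.pos).symm⟩
  exact Pool.Agent.Helper24_Sparse.ev_ne_zero hq b hb hb' w hw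

/-- the vector of the values -/
noncomputable def vv {q t : ℕ} [NeZero q] (F : Fin t → ZMod q → ℤ) (w : ℂ) (s : ZMod q) : Fin t → ℂ :=
  fun l => ev (F l) (w ^ s.val)

theorem card_nonzero {q : ℕ} [NeZero q] (j : ℕ) :
    (univ.filter fun s : Fin j → ZMod q => ∀ i, s i ≠ 0).card = (q - 1) ^ j := by
  classical
  have : (univ.filter fun s : Fin j → ZMod q => ∀ i, s i ≠ 0)
      = Fintype.piFinset fun _ : Fin j => (univ.filter fun a : ZMod q => a ≠ 0) := by
    ext s
    simp
  rw [this, Fintype.card_piFinset, prod_const, card_univ, Fintype.card_fin]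
  congr 1
  rw [filter_ne', card_erase_of_mem (mem_univ _), card_univ, ZMod.card]

theorem functional {q t : ℕ} [NeZero q] (w : ℂ) (hw1 : w ^ q = 1) (A : Finset (ZMod q))
    (F : Fin t → ZMod q → ℤ) (hA : ∀ l, ∀ e ∉ A, F l e = 0) (f : (Fin t → ℂ) →ₗ[ℂ] ℂ) (a : ZMod q) :
    f (vv F w a) = ∑ i ∈ A, (∑ l, f (Pi.single l 1) * (F l i : ℂ)) * w ^ (a * i).val := by
  have h1 : vv F w a = ∑ l, (vv F w a l) • (Pi.single l (1 : ℂ) : Fin t → ℂ) := by
    rw [← pi_eq_sum_univ' (vv F w a)]
  rw [h1, map_sum]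
  simp only [map_smul, smul_eq_mul]
  have h2 : ∀ l, vv F w a l = ∑ i ∈ A, (F l i : ℂ) * w ^ (a * i).val := by
    intro l
    unfold vv ev
    rw [← sum_subset (subset_univ A)]
    · refine sum_congr rfl fun i _ => ?_
      rw [pow_mul_val w hw1]
    · intro i _ hi
      rw [hA l i hi]
      simp
  simp only [h2, sum_mul]
  rw [sum_comm]
  refine sum_congr rfl fun i _ => sum_congr rfl fun l _ => ?_
  ring

theorem bad_card (hSpa : SpaStmt) {q t : ℕ} [NeZero q] (hq : q.Prime) (w : ℂ)
    (hw : IsPrimitiveRoot w q) (A : Finset (ZMod q)) (F : Fin t → ZMod q → ℤ)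
    (hA : ∀ l, ∀ e ∉ A, F l e = 0)
    (hF : LinearIndependent ℂ fun (l : Fin t) (e : ZMod q) => (F l e : ℂ))
    (W : Submodule ℂ (Fin t → ℂ)) (hW : W < ⊤) :
    (open Classical in (univ.filter fun a : ZMod q => vv F w a ∈ W)).card ≤ A.card - 1 := by
  classical
  obtain ⟨f, hf0, hf⟩ := Submodule.exists_le_ker_of_lt_top W hW
  have hc : ∃ i ∈ A, (∑ l, f (Pi.single l 1) * (F l i : ℂ)) ≠ 0 := by
    by_contra hcon
    push Not at hcon
    apply hf0
    have h0 : ∀ i, (∑ l, f (Pi.single l 1) * (F l i : ℂ)) = 0 := by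
      intro i
      by_cases hi : i ∈ A
      · exact hcon i hi
      · exact sum_eq_zero fun l _ => by rw [hA l i hi]; simp
    have h1 := (Fintype.linearIndependent_iff.mp hF) (fun l => f (Pi.single l 1)) (by
      funext i
      rw [Finset.sum_apply]
      simpa only [Pi.smul_apply, smul_eq_mul, Pi.zero_apply] using h0 i)
    apply LinearMap.pi_ext'
    intro l
    apply LinearMap.ext_ring
    simpa using h1 l
  have h2 := hSpa q hq w hw A (fun i => ∑ l, f (Pi.single l 1) * (F l i : ℂ)) hc
  have h3 : (univ.filter fun a : ZMod q => vv F w a ∈ W) ⊆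
      univ.filter fun s : ZMod q =>
        ∑ i ∈ A, (∑ l, f (Pi.single l 1) * (F l i : ℂ)) * w ^ (s * i).val = 0 := by
    intro a ha
    rw [mem_filter] at ha ⊢
    refine ⟨mem_univ _, ?_⟩
    rw [← functional w hw.pow_eq_one A F hA f a]
    exact LinearMap.mem_ker.mp (hf ha.2)
  have h4 := card_le_card h3
  omega

/-- the dependent tuples -/
noncomputable def BB {q t : ℕ} [NeZero q] (F : Fin t → ZMod q → ℤ) (w : ℂ) (j : ℕ) :
    Finset (Fin j → ZMod q) :=
  open Classical in
  univ.filter fun s : Fin j → ZMod q => (∀ i, s i ≠ 0) ∧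
    ¬ LinearIndependent ℂ fun i => vv F w (s i)

theorem step (hSpa : SpaStmt) {q t : ℕ} [NeZero q] (hq : q.Prime) (w : ℂ)
    (hw : IsPrimitiveRoot w q) (A : Finset (ZMod q)) (F : Fin t → ZMod q → ℤ)
    (hA : ∀ l, ∀ e ∉ A, F l e = 0)
    (hF : LinearIndependent ℂ fun (l : Fin t) (e : ZMod q) => (F l e : ℂ)) (j : ℕ) (hj : j < t) :
    (BB F w (j + 1)).card ≤ (q - 1) * (BB F w j).card + (A.card - 1) * (q - 1) ^ j := by
  classical
  set N : Finset (Fin j → ZMod q) := univ.filter fun s => ∀ i, s i ≠ 0 with hN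
  have hBN : BB F w j ⊆ N := by
    intro s hs
    rw [BB, mem_filter] at hs
    rw [hN, mem_filter]
    exact ⟨mem_univ _, hs.2.1⟩
  have h1 : (BB F w (j + 1)).card ≤ ∑ s' ∈ N, ((BB F w (j + 1)).filter fun s => Fin.tail s = s').card := by
    rw [card_eq_sum_card_fiberwise (f := fun s => Fin.tail s) (t := N)]
    intro s hs
    have hs' : s ∈ BB F w (j + 1) := hs
    rw [BB, mem_filter] at hs'
    show Fin.tail s ∈ (N : Set _)
    rw [hN, mem_coe, mem_filter]
    exact ⟨mem_univ _, fun i => hs'.2.1 i.succ⟩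
  have h2 : ∀ s' ∈ N, ((BB F w (j + 1)).filter fun s => Fin.tail s = s').card ≤
      if s' ∈ BB F w j then q - 1 else A.card - 1 := by
    intro s' hs'
    have hinj : Set.InjOn (fun s : Fin (j + 1) → ZMod q => s 0)
        ((BB F w (j + 1)).filter fun s => Fin.tail s = s') := by
      intro s hs r hr hsr
      have e1 := (mem_filter.mp hs).2
      have e2 := (mem_filter.mp hr).2
      rw [← Fin.cons_self_tail s, ← Fin.cons_self_tail r, e1, e2]
      have : s 0 = r 0 := hsr
      rw [this]
    split_ifs with hd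
    · have h3 : ((BB F w (j + 1)).filter fun s => Fin.tail s = s').card
          ≤ (univ.filter fun a : ZMod q => a ≠ 0).card := by
        apply card_le_card_of_injOn _ _ hinj
        intro s hs
        have hs1 := (mem_filter.mp hs).1
        rw [BB, mem_filter] at hs1
        simpa using hs1.2.1 0
      rwa [filter_ne', card_erase_of_mem (mem_univ _), card_univ, ZMod.card] at h3
    · have hli : LinearIndependent ℂ fun i => vv F w (s' i) := by
        by_contra hcon
        apply hd
        rw [BB, mem_filter]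
        rw [hN, mem_filter] at hs'
        exact ⟨mem_univ _, hs'.2, hcon⟩
      set W : Submodule ℂ (Fin t → ℂ) := Submodule.span ℂ (Set.range fun i => vv F w (s' i)) with hWd
      have hW : W < ⊤ := by
        apply lt_top_iff_ne_top.mpr
        intro htop
        have h4 := finrank_span_eq_card hli
        rw [← hWd, htop, finrank_top, Module.finrank_fin_fun, Fintype.card_fin] at h4
        omega
      refine le_trans ?_ (bad_card hSpa hq w hw A F hA hF W hW)
      apply card_le_card_of_injOn _ _ hinj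
      intro s hs
      have hs1 := (mem_filter.mp hs).1
      have hs2 := (mem_filter.mp hs).2
      rw [BB, mem_filter] at hs1
      have h5 := hs1.2.2
      rw [linearIndependent_finSucc] at h5
      have h6 : (Fin.tail fun i => vv F w (s i)) = fun i => vv F w (s' i) := by
        funext i
        rw [← hs2]
        rfl
      rw [h6] at h5
      have h7 : vv F w (s 0) ∈ W := by
        by_contra hcon
        exact h5 ⟨hli, hcon⟩
      simpa using h7
  refine h1.trans ((sum_le_sum h2).trans ?_)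
  rw [sum_ite, sum_const, sum_const, smul_eq_mul, smul_eq_mul]
  have h8 : (N.filter fun s' => s' ∈ BB F w j).card ≤ (BB F w j).card := by
    apply card_le_card
    intro s hs
    exact (mem_filter.mp hs).2
  have h9 : (N.filter fun s' => s' ∉ BB F w j).card ≤ (q - 1) ^ j := by
    rw [← card_nonzero (q := q) j]
    exact card_le_card (filter_subset _ _)
  calc _ ≤ (BB F w j).card * (q - 1) + (q - 1) ^ j * (A.card - 1) :=
        add_le_add (Nat.mul_le_mul_right _ h8) (Nat.mul_le_mul_right _ h9)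
    _ = _ := by ring

theorem dep (hSpa : SpaStmt) : DepStmt := by
  intro q t _ hq ht w hw A F hAq hA hF
  classical
  have hB1 : (BB F w 1).card = 0 := by
    rw [card_eq_zero, BB, filter_eq_empty_iff]
    rintro s - ⟨hs, hdep⟩
    apply hdep
    rw [linearIndependent_unique_iff]
    show vv F w (s default) ≠ 0
    intro h0
    have hprim : IsPrimitiveRoot (w ^ (s default).val) q := by
      apply hw.pow_of_coprime
      rw [Nat.coprime_comm, Nat.Prime.coprime_iff_not_dvd hq]
      intro hdvd
      have h3 : (s default).val = 0 := Nat.eq_zero_of_dvd_of_lt hdvd (ZMod.val_lt _)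
      exact hs default ((ZMod.val_eq_zero _).mp h3)
    have hF0 : (fun e : ZMod q => (F ⟨0, ht⟩ e : ℂ)) ≠ 0 := hF.ne_zero ⟨0, ht⟩
    have h1 := congrFun h0 ⟨0, ht⟩
    refine ev_ne_zero70 hq (F ⟨0, ht⟩) ?_ ?_ _ hprim h1
    · obtain ⟨e, he⟩ : ∃ e, e ∉ A := by
        by_contra hcon
        push Not at hcon
        have : A = univ := eq_univ_iff_forall.mpr hcon
        rw [this, card_univ, ZMod.card] at hAq
        exact lt_irrefl _ hAq
      exact ⟨e, hA _ e he⟩
    · obtain ⟨e, he⟩ := Function.ne_iff.mp hF0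
      exact ⟨e, fun h => he (by simp [h])⟩
  have key : ∀ j, 1 ≤ j → j ≤ t → (BB F w j).card ≤ (j - 1) * (A.card - 1) * (q - 1) ^ (j - 1) := by
    intro j hj
    induction j, hj using Nat.le_induction with
    | base => intro _; rw [hB1]; simp
    | succ j hj ih =>
      intro hjt
      have h1 := step hSpa hq w hw A F hA hF j (by omega)
      have h2 := ih (by omega)
      refine h1.trans ?_
      obtain ⟨i, rfl⟩ : ∃ i, j = i + 1 := ⟨j - 1, by omega⟩
      simp only [Nat.add_sub_cancel] at h2 ⊢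
      calc (q - 1) * (BB F w (i + 1)).card + (A.card - 1) * (q - 1) ^ (i + 1)
          ≤ (q - 1) * (i * (A.card - 1) * (q - 1) ^ i) + (A.card - 1) * (q - 1) ^ (i + 1) :=
            Nat.add_le_add_right (Nat.mul_le_mul_left _ h2) _
        _ = (i + 1) * (A.card - 1) * (q - 1) ^ (i + 1) := by ring
  refine le_trans (card_le_card ?_) (key t ht le_rfl)
  intro s hs
  rw [mem_filter] at hs
  rw [BB, mem_filter]
  refine ⟨mem_univ _, hs.2.1, ?_⟩
  intro hli
  have h1 : IsUnit (Matrix.of fun i l => ev (F l) (w ^ (s i).val)) :=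
    Matrix.linearIndependent_rows_iff_isUnit.mp hli
  rw [Matrix.isUnit_iff_isUnit_det, isUnit_iff_ne_zero] at h1
  exact h1 hs.2.2

end Pool.Agent.SPV.H70
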