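import Pool.Agent.SPV.StmtsA

/-!
# Squad SPV, row UNB: the union bound
-/

set_option autoImplicit false

namespace Pool.Agent.SPV.H70

open Finset

lemma unb_choose (n k : ℕ) (hkn : k ≤ n) : ∀ m : ℕ, m ≤ k →
    ((n - m).choose (k - m) : ℝ) ≤ ((k : ℝ) / n) ^ m * (n.choose k : ℝ) := by
  intro m
  induction m with
  | zero => intro _; simp
  | succ m ih =>
    intro hm
    have h1 := ih (by omega)
    obtain ⟨a, ha⟩ : ∃ a, n - m = a + 1 := ⟨n - m - 1, by omega⟩
    obtain ⟨b, hb⟩ : ∃ b, k - m = b + 1 := ⟨k - m - 1, by omega⟩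
    have ha' : n - (m + 1) = a := by omega
    have hb' : k - (m + 1) = b := by omega
    rw [ha', hb']
    rw [ha, hb] at h1
    have h2 := Nat.add_one_mul_choose_eq a b
    have hn : n = a + 1 + m := by omega
    have hk : k = b + 1 + m := by omega
    have hnpos : (0 : ℝ) < n := by
      have : 0 < n := by omega
      exact_mod_cast this
    have h2' : ((a : ℝ) + 1) * (a.choose b : ℝ) = ((a + 1).choose (b + 1) : ℝ) * ((b : ℝ) + 1) := by
      have : (a + 1) * a.choose b = (a + 1).choose (b + 1) * (b + 1) := h2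
      exact_mod_cast this
    have h3 : (a.choose b : ℝ) ≤ ((k : ℝ) / n) * ((a + 1).choose (b + 1) : ℝ) := by
      have ha1 : (0 : ℝ) < (a : ℝ) + 1 := by positivity
      have h4 : (a.choose b : ℝ) = ((b : ℝ) + 1) / ((a : ℝ) + 1) * ((a + 1).choose (b + 1) : ℝ) := by
        field_simp
        linarith
      rw [h4]
      apply mul_le_mul_of_nonneg_right _ (Nat.cast_nonneg _)
      rw [div_le_div_iff₀ ha1 hnpos]
      have hab : b ≤ a := by omega
      have hab' : (b : ℝ) ≤ a := by exact_mod_cast hab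
      have hm0 : (0 : ℝ) ≤ m := Nat.cast_nonneg m
      rw [hn, hk]
      push_cast
      nlinarith
    calc (a.choose b : ℝ) ≤ ((k : ℝ) / n) * ((a + 1).choose (b + 1) : ℝ) := h3
      _ ≤ ((k : ℝ) / n) * (((k : ℝ) / n) ^ m * (n.choose k : ℝ)) := by
        apply mul_le_mul_of_nonneg_left h1
        positivity
      _ = ((k : ℝ) / n) ^ (m + 1) * (n.choose k : ℝ) := by ring

lemma unb_super (S B : Finset ℕ) (k m : ℕ) (hB : B ⊆ S) (hBm : B.card = m) :
    ((S.powersetCard k).filter fun A => B ⊆ A).card ≤ (S.card - m).choose (k - m) := by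
  have h1 : ((S \ B).powersetCard (k - m)).card = (S.card - m).choose (k - m) := by
    rw [card_powersetCard, card_sdiff_of_subset hB, hBm]
  rw [← h1]
  apply card_le_card_of_injOn (fun A => A \ B)
  · intro A hA
    simp only [coe_filter, mem_powersetCard, Set.mem_ofPred_eq] at hA
    simp only [mem_coe, mem_powersetCard]
    refine ⟨sdiff_subset_sdiff hA.1.1 (Subset.refl B), ?_⟩
    rw [card_sdiff_of_subset hA.2, hA.1.2, hBm]
  · intro A hA A' hA' h
    simp only [coe_filter, mem_powersetCard, Set.mem_ofPred_eq] at hA hA'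
    simp only at h
    rw [← sdiff_union_of_subset hA.2, ← sdiff_union_of_subset hA'.2, h]

theorem unb : UnbStmt := by
  classical
  intro S k P w hw
  by_cases hk : S.card < k
  · have h0 : {A : Finset ℕ | A ⊆ S ∧ A.card = k ∧ ∃ B, B ⊆ A ∧ B.Nonempty ∧ P B} = ∅ := by
      ext A
      simp only [Set.mem_ofPred_eq, Set.mem_empty_iff_false, iff_false]
      rintro ⟨h1, h2, _⟩
      have := card_le_card h1
      omega
    rw [h0, Nat.choose_eq_zero_of_lt hk]
    simp
  push Not at hk
  set n := S.card with hn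
  have hset : {A : Finset ℕ | A ⊆ S ∧ A.card = k ∧ ∃ B, B ⊆ A ∧ B.Nonempty ∧ P B} ⊆
      (((Icc 1 k).biUnion fun m => ((S.powersetCard m).filter P).biUnion fun B =>
        (S.powersetCard k).filter fun A => B ⊆ A : Finset (Finset ℕ)) : Set (Finset ℕ)) := by
    rintro A ⟨hA, hAk, B, hBA, hBn, hPB⟩
    simp only [coe_biUnion, Set.mem_iUnion, mem_coe, mem_Icc, mem_filter, mem_powersetCard,
      exists_prop]
    refine ⟨B.card, ⟨hBn.card_pos, ?_⟩, B, ⟨⟨hBA.trans hA, rfl⟩, hPB⟩, ⟨hA, hAk⟩, hBA⟩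
    rw [← hAk]
    exact card_le_card hBA
  have hcard : {A : Finset ℕ | A ⊆ S ∧ A.card = k ∧ ∃ B, B ⊆ A ∧ B.Nonempty ∧ P B}.ncard ≤
      ∑ m ∈ Icc 1 k, ((S.powersetCard m).filter P).card * (n - m).choose (k - m) := by
    refine (Set.ncard_le_ncard hset (finite_toSet _)).trans ?_
    rw [Set.ncard_coe_finset]
    refine card_biUnion_le.trans ?_
    apply sum_le_sum
    intro m _
    refine card_biUnion_le.trans ?_
    rw [← smul_eq_mul, ← sum_const]
    apply sum_le_sum
    intro B hB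
    simp only [mem_filter, mem_powersetCard] at hB
    exact unb_super S B k m hB.1.1 hB.1.2
  have hcard' : ({A : Finset ℕ | A ⊆ S ∧ A.card = k ∧ ∃ B, B ⊆ A ∧ B.Nonempty ∧ P B}.ncard : ℝ) ≤
      ∑ m ∈ Icc 1 k, (((S.powersetCard m).filter P).card : ℝ) * ((n - m).choose (k - m) : ℝ) := by
    exact_mod_cast hcard
  refine hcard'.trans ?_
  rw [sum_mul]
  apply sum_le_sum
  intro m hm
  rw [mem_Icc] at hm
  have h1 := hw m hm.1 hm.2
  have h2 : {B : Finset ℕ | B ⊆ S ∧ B.card = m ∧ P B} =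
      (((S.powersetCard m).filter P : Finset (Finset ℕ)) : Set (Finset ℕ)) := by
    ext B
    simp only [Set.mem_ofPred_eq, coe_filter, mem_powersetCard]
    tauto
  rw [h2, Set.ncard_coe_finset] at h1
  have hw0 : 0 ≤ w m := (Nat.cast_nonneg _).trans h1
  calc (((S.powersetCard m).filter P).card : ℝ) * ((n - m).choose (k - m) : ℝ)
      ≤ w m * (((k : ℝ) / n) ^ m * (n.choose k : ℝ)) :=
        mul_le_mul h1 (unb_choose n k hk m hm.2) (Nat.cast_nonneg _) hw0
    _ = w m * ((k : ℝ) / n) ^ m * (n.choose k : ℝ) := by ring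

end Pool.Agent.SPV.H70
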